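import Pool.Agent.H8.VR.StepL
import Pool.Agent.H8.VR.Targets

/-!
# Transport of configurations
-/

set_option autoImplicit false

namespace Pool.Agent.H53.VR

open Classical Pool.Agent.H8.VR

theorem num_image {A B : Type} [Fintype A] [Fintype B] (f : A → B) (X : Set A)
    (hf : Set.InjOn f X) (P : B → Prop) :
    num (fun b => b ∈ f '' X ∧ P b) = num (fun a => a ∈ X ∧ P (f a)) := by
  unfold num
  symm
  refine Finset.card_bij (fun a _ => f a) ?_ ?_ ?_
  · intro a ha
    simp only [Finset.mem_filter, Finset.mem_univ, true_and] at ha ⊢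
    exact ⟨⟨a, ha.1, rfl⟩, ha.2⟩
  · intro a ha b hb h
    simp only [Finset.mem_filter, Finset.mem_univ, true_and] at ha hb
    exact hf ha.1 hb.1 h
  · intro b hb
    simp only [Finset.mem_filter, Finset.mem_univ, true_and] at hb
    obtain ⟨⟨a, ha, rfl⟩, h⟩ := hb
    exact ⟨a, by simp only [Finset.mem_filter, Finset.mem_univ, true_and]; exact ⟨ha, h⟩, rfl⟩

theorem kn_image {L T A B : Type} [Fintype A] [Fintype B] (lam : A → L) (th : A → A → T)
    (Y : Set A) (f : A → B) (hf : Set.InjOn f Y) (lam' : B → L) (th' : B → B → T)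
    (hl : ∀ a ∈ Y, lam' (f a) = lam a)
    (ht : ∀ a ∈ Y, ∀ b ∈ Y, a ≠ b → th' (f a) (f b) = th a b) (a : A) (ha : a ∈ Y) (p : L × T) :
    kn lam' th' (f '' Y) (f a) p = kn lam th Y a p := by
  unfold kn
  rw [num_image f Y hf (fun b => b ≠ f a ∧ lam' b = p.1 ∧ th' (f a) b = p.2)]
  refine num_congr fun b => ?_
  constructor
  · rintro ⟨h1, h2, h3, h4⟩
    have hne : b ≠ a := fun h => h2 (by rw [h])
    rw [hl b h1] at h3
    rw [ht a ha b h1 (Ne.symm hne)] at h4
    exact ⟨h1, hne, h3, h4⟩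
  · rintro ⟨h1, h2, h3, h4⟩
    refine ⟨h1, fun h => h2 (hf h1 ha h), ?_, ?_⟩
    · rw [hl b h1]; exact h3
    · rw [ht a ha b h1 (Ne.symm h2)]; exact h4

theorem t_CM : T_CM := by
  intro Q L T C A B _ _ K lam th X Y c f hf hXY lam' th' c' hl ht hc
  funext τ
  unfold cf
  rw [num_image f X (hf.mono hXY) (fun b => (c' b, stt K lam' th' (f '' Y) b) = τ)]
  refine num_congr fun a => ?_
  refine and_congr_right fun ha => ?_
  have e : stt K lam' th' (f '' Y) (f a) = stt K lam th Y a := by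
    unfold stt
    refine Prod.ext (hl a (hXY ha)) (funext fun p => ?_)
    exact congrArg K.cp (kn_image lam th Y f hf lam' th' hl ht a (hXY ha) p)
  rw [hc a ha, e]

end Pool.Agent.H53.VR
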